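import Pool.Agent.Helper60.HB.Skel

set_option autoImplicit false

/-! # Elements of small height are torsion, uniformly in fields of degree `d` -/

open NumberField Polynomial

namespace Pool.Agent.Helper61.HB

open Pool.Agent.Helper60.HB

/-- conjugates are bounded by the height -/
theorem c0_norm_le (K : Type) [Field K] [NumberField K] (τ : K →+* ℂ) (x : K) :
    ‖τ x‖ ≤ Height.mulHeight₁ x := by
  rw [NumberField.mulHeight₁_eq]
  have h1 : (1 : ℝ) ≤ ∏ᶠ v : FinitePlace K, max (v x) 1 :=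
    one_le_finprod fun _ ↦ le_max_right ..
  have hv : (InfinitePlace.mk τ) x = ‖τ x‖ := rfl
  have h2 : ‖τ x‖ ≤ ∏ v : InfinitePlace K, max (v x) 1 ^ v.mult := by
    classical
    rw [← Finset.mul_prod_erase Finset.univ _ (Finset.mem_univ (InfinitePlace.mk τ))]
    have h3 : (1 : ℝ) ≤ ∏ v ∈ Finset.univ.erase (InfinitePlace.mk τ), max (v x) 1 ^ v.mult := by
      have : ∏ v ∈ Finset.univ.erase (InfinitePlace.mk τ), (1 : ℝ) ≤
          ∏ v ∈ Finset.univ.erase (InfinitePlace.mk τ), max (v x) 1 ^ v.mult := by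
        refine Finset.prod_le_prod (fun _ _ => zero_le_one) (fun v _ => ?_)
        exact one_le_pow₀ (le_max_right _ _)
      simpa using this
    have h4 : ‖τ x‖ ≤ max ((InfinitePlace.mk τ) x) 1 ^ (InfinitePlace.mk τ).mult := by
      calc ‖τ x‖ ≤ max ((InfinitePlace.mk τ) x) 1 := by rw [hv]; exact le_max_left _ _
        _ ≤ _ := le_self_pow₀ (le_max_right _ _) (InfinitePlace.mult_ne_zero)
    calc ‖τ x‖ ≤ max ((InfinitePlace.mk τ) x) 1 ^ (InfinitePlace.mk τ).mult := h4
      _ ≤ _ := le_mul_of_one_le_right (by positivity) h3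
  calc ‖τ x‖ ≤ ∏ v : InfinitePlace K, max (v x) 1 ^ v.mult := h2
    _ ≤ _ := le_mul_of_one_le_right ((norm_nonneg _).trans h2) h1

/-- a bound for the coefficients of the minimal polynomials -/
noncomputable def c0C (d : ℕ) : ℕ := Nat.ceil (max (6 : ℝ) 1 ^ d * (d.choose (d / 2)))

/-- the finite set of possible conjugates -/
noncomputable def c0S (d : ℕ) : Set ℂ :=
  open Classical in
  ⋃ (f : ℤ[X]) (_ : f.natDegree ≤ d ∧ ∀ i, f.coeff i ∈ Set.Icc (-(c0C d : ℤ)) (c0C d)),
        ((f.map (algebraMap ℤ ℂ)).roots.toFinset : Set ℂ)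

theorem c0S_finite (d : ℕ) : (c0S d).Finite := by
  classical
  exact bUnion_roots_finite (algebraMap ℤ ℂ) d (Set.finite_Icc (-(c0C d : ℤ)) (c0C d))

theorem c0_mem (d : ℕ) (K : Type) [Field K] [NumberField K] (hd : Module.finrank ℚ K = d)
    (y : K) (hy : IsIntegral ℤ y) (hB : ∀ φ : K →+* ℂ, ‖φ y‖ ≤ 6) (τ : K →+* ℂ) :
    τ y ∈ c0S d := by
  classical
  unfold c0S
  simp_rw [Set.mem_iUnion]
  have h_map := minpoly.isIntegrallyClosed_eq_field_fractions' ℚ hy
  refine ⟨minpoly ℤ y, ⟨?_, fun i => ?_⟩, ?_⟩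
  · rw [← (minpoly.monic hy).natDegree_map (algebraMap ℤ ℚ), ← h_map, ← hd]
    exact minpoly.natDegree_le y
  · rw [Set.mem_Icc, ← abs_le, ← @Int.cast_le ℝ]
    have h1 := Embeddings.coeff_bdd_of_norm_le hB i
    rw [hd] at h1
    refine (Eq.trans_le ?_ h1).trans (by
      have := Nat.le_ceil (max (6 : ℝ) 1 ^ d * (d.choose (d / 2)))
      simpa [c0C] using this)
    rw [h_map, coeff_map, eq_intCast, Int.norm_cast_rat, Int.norm_eq_abs, Int.cast_abs]
  · rw [Finset.mem_coe, Multiset.mem_toFinset, mem_roots_map_of_injective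
      (algebraMap ℤ ℂ).injective_int (minpoly.ne_zero hy)]
    have h2 : aeval y (minpoly ℤ y) = 0 := minpoly.aeval ℤ y
    have h3 : τ (aeval y (minpoly ℤ y)) = eval₂ (algebraMap ℤ ℂ) (τ y) (minpoly ℤ y) := by
      rw [aeval_def, hom_eval₂]
      congr 1
      exact RingHom.ext_int _ _
    rw [← h3, h2, map_zero]

theorem st_C0 : Pool.Agent.Helper60.HB.ST_C0 := by
  intro d
  classical
  set N : ℕ := (c0S_finite d).toFinset.card with hN
  refine ⟨1 / (N + 1), by positivity, ?_, ?_⟩
  · rw [div_le_one (by positivity)]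
    have : (0 : ℝ) ≤ N := Nat.cast_nonneg _
    linarith
  intro K _ _ hd x hx hh
  obtain ⟨τ⟩ : Nonempty (K →+* ℂ) := inferInstance
  -- heights of small powers
  have hpow : ∀ j : ℕ, j ≤ N + 1 → Height.mulHeight₁ (x ^ j) < 3 := by
    intro j hj
    rw [Height.mulHeight₁_pow]
    have h1 : Height.mulHeight₁ x = Real.exp (Height.logHeight₁ x) := by
      rw [Height.logHeight₁_eq_log_mulHeight₁, Real.exp_log (Height.mulHeight₁_pos x)]
    rw [h1, ← Real.exp_nat_mul]
    have h2 : (j : ℝ) * Height.logHeight₁ x ≤ 1 := by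
      have h0 := Height.zero_le_logHeight₁ x
      have hj' : (j : ℝ) ≤ N + 1 := by exact_mod_cast hj
      calc (j : ℝ) * Height.logHeight₁ x ≤ (N + 1) * (1 / (N + 1)) :=
            mul_le_mul hj' hh.le h0 (by positivity)
        _ = 1 := by field_simp
    calc Real.exp (j * Height.logHeight₁ x) ≤ Real.exp 1 := Real.exp_le_exp.mpr h2
      _ < 3 := by
        have := Real.exp_one_lt_d9
        linarith
  have hint : ∀ j : ℕ, j ≤ N + 1 → IsIntegral ℤ (2 * x ^ j) := by
    intro j hj
    obtain ⟨n, hn0, hn, hni⟩ := NumberField.exists_nat_le_mulHeight₁ (x ^ j)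
    have h3 : (n : ℝ) < 3 := hn.trans_lt (hpow j hj)
    have h4 : n < 3 := by exact_mod_cast h3
    have h5 : n = 1 ∨ n = 2 := by omega
    rcases h5 with h | h
    · subst h
      have h6 : IsIntegral ℤ (x ^ j) := by simpa using hni
      have h7 : IsIntegral ℤ (2 : K) := by
        have := isIntegral_algebraMap (R := ℤ) (A := K) (x := 2)
        simpa using this
      exact h7.mul h6
    · subst h
      simpa using hni
  have hmem : ∀ j : ℕ, j ≤ N + 1 → τ (2 * x ^ j) ∈ (c0S_finite d).toFinset := by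
    intro j hj
    rw [Set.Finite.mem_toFinset]
    refine c0_mem d K hd _ (hint j hj) (fun φ => ?_) τ
    rw [map_mul, norm_mul]
    have h8 := (c0_norm_le K φ (x ^ j)).trans (hpow j hj).le
    have h9 : ‖φ (2 : K)‖ = 2 := by
      rw [map_ofNat φ 2]
      exact Complex.norm_ofNat 2
    rw [h9]
    linarith
  -- pigeonhole
  have hpig : ∃ i ∈ Finset.range (N + 1), ∃ j ∈ Finset.range (N + 1), i ≠ j ∧
      τ (2 * x ^ i) = τ (2 * x ^ j) := by
    refine Finset.exists_ne_map_eq_of_card_lt_of_maps_to (t := (c0S_finite d).toFinset) ?_ ?_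
    · rw [Finset.card_range, ← hN]
      exact Nat.lt_succ_self _
    · intro j hj
      have hj' : j < N + 1 := Finset.mem_range.mp hj
      exact hmem j hj'.le
  obtain ⟨i, _, j, _, hij, he⟩ := hpig
  have he2 : x ^ i = x ^ j := by
    have h10 := τ.injective he
    exact mul_left_cancel₀ two_ne_zero h10
  have key : ∀ a b : ℕ, a < b → x ^ a = x ^ b → TOR x := by
    intro a b hab h
    refine ⟨b - a, Nat.sub_pos_of_lt hab, ?_⟩
    have h11 : x ^ b = x ^ (b - a) * x ^ a := by
      rw [← pow_add, Nat.sub_add_cancel hab.le]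
    rw [h11] at h
    have h12 : (1 : K) * x ^ a = x ^ (b - a) * x ^ a := by rw [one_mul]; exact h
    exact (mul_right_cancel₀ (pow_ne_zero _ hx) h12).symm
  rcases lt_or_gt_of_ne hij with h | h
  · exact key i j h he2
  · exact key j i h he2.symm

end Pool.Agent.Helper61.HB
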